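import Mathlib
import Pool.Agent.U707.SHA.Grow
import Pool.Agent.U80.NP.Grp
import Pool.Agent.U80.NP.Dual

/-!
# The Selmer ranks of the twists with prime factors in an arbitrary set of primes

`E_D : y² = x³ + a D x² + b D² x` is the quadratic twist by `D` of `E : y² = x³ + a x² + b x`, where
`b` and `c = a² - 4 b` are not zero. `f₁`, `f₂` and the Selmer rank `s = f₁ + f₂ - 2` are those of the
problem. A prime is split if it is `1` modulo `8` and a nonzero square modulo all the odd primes dividing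
`b c`, and inert if it is odd and neither `b` nor `c` is a square modulo it. `D` is a squarefree product
of split and inert primes, `1` modulo `8` and a nonzero square modulo the odd primes dividing `b c`. A
split or inert prime `p` is admissible for `D` if `t⁴ + a D t² + b D²` has no root modulo `p`.

Let `S` be an arbitrary infinite set of split or inert primes (nothing else is assumed).

* `S` has an infinite subset `T` such that either `s(E_{D ∏ A}) = s(E_D)` for ALL finite `A ⊆ T` with an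
  even number of elements, or `s(E_{D ∏ A}) = 2 |A| + m` with an integer `m` for ALL these `A ≠ ∅`.
* The first is possible if and only if infinitely many `p ∈ S` are admissible for `D`, and if and only if
  `s(E_{D ∏ A})` is bounded for some infinite `T ⊆ S`; the second is possible if and only if infinitely
  many `p ∈ S` are not admissible for `D`.
* If `s(E_D) = 0`, then `S` has an infinite subset `T` such that the rank and the Selmer rank of
  `E_{D ∏ A}` are both zero (so that they have the same parity) for ALL these `A`, if and only if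
  infinitely many `p ∈ S` are admissible for `D`.

The Selmer groups of a single twist are those of helper115 (`Pool/Agent/U115/GE`), the group structure
that of helper80 (`U80/NP`), the theorem of Ramsey is used as in helper693's `U693/X49`. New here: the
exact number of elements of the kernel of the matrix of `D ∏ A` in terms of `|A|` for all homogeneous
sets `A` (`Pool/Agent/U707/SHA`).
-/

set_option autoImplicit false

open scoped Classical

namespace Pool.Agent.Results.MP_e2b281_nt.AffineSelmerRanks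

open Pool.Agent.TH841.NF.D (rk)

/-- the curve `y² = x³ + a x² + b x` -/
def E (a b : ℤ) : WeierstrassCurve ℚ := { a₁ := 0, a₂ := (a : ℚ), a₃ := 0, a₄ := (b : ℚ), a₆ := 0 }

/-- the classes of the everywhere locally soluble quartics `N² = b₁ M⁴ + a M² e² + (b / b₁) e⁴` -/
def classes (a b : ℤ) : Set ℤ :=
  {b₁ : ℤ | Squarefree b₁ ∧ b₁ ∣ b ∧
    (∃ N M e : ℝ, (M ≠ 0 ∨ e ≠ 0) ∧
      N ^ 2 = (b₁ : ℝ) * M ^ 4 + (a : ℝ) * M ^ 2 * e ^ 2 + ((b / b₁ : ℤ) : ℝ) * e ^ 4) ∧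
    ∀ (p : ℕ) [Fact p.Prime], ∃ N M e : ℚ_[p], (M ≠ 0 ∨ e ≠ 0) ∧
      N ^ 2 = (b₁ : ℚ_[p]) * M ^ 4 + (a : ℚ_[p]) * M ^ 2 * e ^ 2
        + ((b / b₁ : ℤ) : ℚ_[p]) * e ^ 4}

/-- the exponent of the number of the classes -/
noncomputable def f (a b : ℤ) : ℕ := Nat.log 2 (classes a b).ncard

/-- the Selmer rank of the descent by the isogeny of degree two, an integer -/
noncomputable def s (a b : ℤ) : ℤ := (f a b : ℤ) + (f (-2 * a) (a ^ 2 - 4 * b) : ℤ) - 2

/-- `n` is `1` modulo `8` and a nonzero square modulo the odd primes dividing `b (a² - 4 b)` -/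
def Res (a b : ℤ) (n : ℕ) : Prop := n % 8 = 1 ∧ ∀ l : ℕ, l.Prime → l ≠ 2 →
  (l : ℤ) ∣ b * (a ^ 2 - 4 * b) → ¬ l ∣ n ∧ IsSquare (n : ZMod l)

/-- the inert primes -/
def Inert (a b : ℤ) (q : ℕ) : Prop := q ≠ 2 ∧ ¬ IsSquare (b : ZMod q) ∧
  ¬ IsSquare ((a ^ 2 - 4 * b : ℤ) : ZMod q)

/-- a split or inert prime -/
def SplitOrInert (a b : ℤ) (p : ℕ) : Prop := p.Prime ∧ (Res a b p ∨ Inert a b p)

/-- the class of the numbers `D` -/
def Class (a b : ℤ) (D : ℕ) : Prop := Squarefree D ∧ Res a b D ∧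
  ∀ p ∈ D.primeFactors, SplitOrInert a b p

/-- the admissible primes for `D` -/
def Admissible (a b : ℤ) (D p : ℕ) : Prop := SplitOrInert a b p ∧
  ∀ t : ZMod p, t ^ 4 + (a : ZMod p) * D * t ^ 2 + (b : ZMod p) * (D : ZMod p) ^ 2 ≠ 0

/-- the twist by `D` of `E a b` -/
noncomputable def twist (a b : ℤ) (D : ℕ) : WeierstrassCurve ℚ := E (a * D) (b * D ^ 2)

/-- the Selmer rank of the twist by `D` -/
noncomputable def sT (a b : ℤ) (D : ℕ) : ℤ := s (a * D) (b * D ^ 2)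

/-- the property `Q` of `A` and `D ∏ A` holds for all the finite subsets `A` of `T` with an even number
of elements -/
def ForAllEven (T : Set ℕ) (D : ℕ) (Q : Finset ℕ → ℕ → Prop) : Prop :=
  ∀ A : Finset ℕ, (A : Set ℕ) ⊆ T → Even A.card → Q A (D * ∏ p ∈ A, p)

/-- the exponents `f₁`, `f₂` of all the twists by `D ∏ A` are those of the twist by `D` -/
def Constant (a b : ℤ) (D : ℕ) (T : Set ℕ) : Prop :=
  ForAllEven T D fun _ D' => Class a b D' ∧ f (a * D') (b * D' ^ 2) = f (a * D) (b * D ^ 2) ∧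
    f (-2 * (a * D')) ((a * D') ^ 2 - 4 * (b * D' ^ 2)) =
      f (-2 * (a * D)) ((a * D) ^ 2 - 4 * (b * D ^ 2))

/-- the Selmer ranks of the twists by `D ∏ A`, `A` not empty, are `2 |A| + m` -/
def Linear (a b : ℤ) (D : ℕ) (T : Set ℕ) (m : ℤ) : Prop :=
  ForAllEven T D fun A D' => A.Nonempty → Class a b D' ∧ sT a b D' = 2 * A.card + m

section proof

open Finset
open Pool.Agent.U115.GE (SelSet sel sel_dvd)
open Pool.Agent.U707.SHA (Adm Same SI NoRoot sel_cl inf_adm inf_iff grow kap)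

variable {a b : ℤ} {D : ℕ}

theorem si_iff (p : ℕ) : SplitOrInert a b p ↔ SI a b p :=
  and_congr_right fun h => or_congr Iff.rfl ⟨fun h' => ⟨h, h'⟩, fun h' => h'.2⟩

theorem class_iff : Class a b D ↔ Pool.Agent.U115.GE.Class a b D := by
  refine and_congr_right fun _ => and_congr_right fun _ => forall₂_congr fun p hp => ?_
  have hpp := Nat.prime_of_mem_primeFactors hp
  exact ⟨fun h => h.2.elim (fun h' => Or.inl ⟨hpp, h'⟩) fun h' => Or.inr ⟨hpp, h'⟩,
    fun h => ⟨hpp, h.elim (fun h' => Or.inl h'.2) fun h' => Or.inr h'.2⟩⟩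

theorem adm_iff (p : ℕ) : Admissible a b D p ↔ Adm a b D p := and_congr (si_iff p) Iff.rfl

theorem dvd_of_sel {d : ℤ} (h : d ∈ SelSet a b) : d ∣ b := by
  have h1 : d.natAbs ∣ b.natAbs := by
    by_cases hb : b = 0
    · rw [hb]; exact dvd_zero _
    rw [← Nat.prod_primeFactors_of_squarefree (Int.squarefree_natAbs.2 h.1)]
    refine Finset.prod_primes_dvd _ (fun p hp => (Nat.prime_of_mem_primeFactors hp).prime)
      fun p hp => ?_
    have h2 := sel_dvd h (Nat.prime_of_mem_primeFactors hp)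
      (Int.natCast_dvd.2 (Nat.dvd_of_mem_primeFactors hp))
    exact Int.natCast_dvd.1 h2
  exact Int.natAbs_dvd_natAbs.1 h1

theorem classes_eq (a b : ℤ) : classes a b = SelSet a b := by
  have key : ∀ (d : ℤ), Squarefree d → d ∣ b → ∀ (K : Type) [Field K] [CharZero K],
      ((b / d : ℤ) : K) = (b : K) / (d : K) := by
    intro d hd hdb K _ _
    exact Int.cast_div hdb (by exact_mod_cast hd.ne_zero)
  ext d
  constructor
  · rintro ⟨h1, h2, h3, h4⟩
    rw [key d h1 h2 ℝ] at h3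
    refine ⟨h1, h3, fun p hp => ?_⟩
    have h5 := h4 p
    rw [key d h1 h2 ℚ_[p]] at h5
    exact h5
  · intro h
    have h2 := dvd_of_sel h
    obtain ⟨h1, h3, h4⟩ := h
    refine ⟨h1, h2, ?_, fun p hp => ?_⟩
    · rw [key d h1 h2 ℝ]
      exact h3
    · have h5 := h4 p
      rw [key d h1 h2 ℚ_[p]]
      exact h5

theorem card_pow (hb : b ≠ 0) : sel a b = 2 ^ f a b := by
  have h1 : classes a b = Pool.Agent.U80.NP.Sel a b := Pool.Agent.U80.NP.qs_eq a b
  have h2 := Pool.Agent.U80.NP.ncard_pow (a := a) hb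
  unfold f sel
  rw [← classes_eq, h1]
  exact h2

/-- the exponents of the twists -/
theorem exps (hb : b ≠ 0) (hc : a ^ 2 - 4 * b ≠ 0) (hD : Class a b D) :
    2 ^ f (a * D) (b * D ^ 2) = kap a b D * 2 ^ f a b ∧
    2 ^ f (-2 * (a * D)) ((a * D) ^ 2 - 4 * (b * D ^ 2)) =
      kap a b D * 2 ^ f (-2 * a) (a ^ 2 - 4 * b) := by
  obtain ⟨h1, h2, -, -⟩ := sel_cl hb hc (class_iff.1 hD)
  have hD0 : (D : ℤ) ≠ 0 := by exact_mod_cast hD.1.ne_zero
  have hb' : b * (D : ℤ) ^ 2 ≠ 0 := mul_ne_zero hb (pow_ne_zero 2 hD0)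
  have hc' : (a * (D : ℤ)) ^ 2 - 4 * (b * (D : ℤ) ^ 2) ≠ 0 := by
    have e : (a * (D : ℤ)) ^ 2 - 4 * (b * (D : ℤ) ^ 2) = (a ^ 2 - 4 * b) * (D : ℤ) ^ 2 := by ring
    rw [e]
    exact mul_ne_zero hc (pow_ne_zero 2 hD0)
  rw [card_pow hb', card_pow hb] at h1
  rw [card_pow hc', card_pow hc] at h2
  exact ⟨h1, h2⟩

/-- `kap` is a power of two -/
theorem kap_pow (hb : b ≠ 0) (hc : a ^ 2 - 4 * b ≠ 0) (hD : Class a b D) :
    ∃ j : ℕ, kap a b D = 2 ^ j ∧ f (a * D) (b * D ^ 2) = j + f a b ∧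
      f (-2 * (a * D)) ((a * D) ^ 2 - 4 * (b * D ^ 2)) = j + f (-2 * a) (a ^ 2 - 4 * b) ∧
      sT a b D = 2 * j + s a b := by
  obtain ⟨h1, h2⟩ := exps hb hc hD
  obtain ⟨j, -, hj⟩ := (Nat.dvd_prime_pow Nat.prime_two).1 (Dvd.intro _ h1.symm :
    kap a b D ∣ 2 ^ f (a * D) (b * D ^ 2))
  rw [hj, ← pow_add] at h1 h2
  have e1 := Nat.pow_right_injective le_rfl h1
  have e2 := Nat.pow_right_injective le_rfl h2
  refine ⟨j, hj, e1, e2, ?_⟩
  unfold sT s
  rw [e1, e2]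
  push_cast
  ring

theorem same_iff (hb : b ≠ 0) (hc : a ^ 2 - 4 * b ≠ 0) (hD : Class a b D) (D' : ℕ) :
    (Class a b D' ∧ f (a * D') (b * D' ^ 2) = f (a * D) (b * D ^ 2) ∧
      f (-2 * (a * D')) ((a * D') ^ 2 - 4 * (b * D' ^ 2)) =
        f (-2 * (a * D)) ((a * D) ^ 2 - 4 * (b * D ^ 2))) ↔ Same a b D D' := by
  obtain ⟨j, h1, h2, h3, -⟩ := kap_pow hb hc hD
  constructor
  · rintro ⟨h, e1, -⟩
    obtain ⟨j', h1', h2', -, -⟩ := kap_pow hb hc h
    refine ⟨class_iff.1 h, ?_⟩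
    rw [h1, h1']
    congr 1
    omega
  · rintro ⟨h, e⟩
    have h' := class_iff.2 h
    obtain ⟨j', h1', h2', h3', -⟩ := kap_pow hb hc h'
    rw [h1, h1'] at e
    have e' := Nat.pow_right_injective le_rfl e
    exact ⟨h', by omega, by omega⟩

theorem const_part (hb : b ≠ 0) (hc : a ^ 2 - 4 * b ≠ 0) (hD : Class a b D) (S : Set ℕ)
    (hS : ∀ p ∈ S, SplitOrInert a b p) :
    List.TFAE [{p ∈ S | Admissible a b D p}.Infinite,
      ∃ T ⊆ S, T.Infinite ∧ Constant a b D T,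
      ∃ T ⊆ S, T.Infinite ∧ ∃ M : ℤ, ForAllEven T D fun _ D' => sT a b D' ≤ M] := by
  have h := inf_iff hb hc (class_iff.1 hD) S fun p hp => (si_iff p).1 (hS p hp)
  have e1 : {p ∈ S | Admissible a b D p} = {p ∈ S | Adm a b D p} := by
    ext p
    exact and_congr_right fun _ => adm_iff p
  have h12 := h.out 0 1
  have h31 := h.out 2 0
  tfae_have 1 → 2 := by
    intro h1
    rw [e1] at h1
    obtain ⟨T, hT, h2, h3⟩ := h12.1 h1
    exact ⟨T, hT, h2, fun A hA hAe => (same_iff hb hc hD _).2 (h3 A hA hAe)⟩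
  tfae_have 2 → 3 := by
    rintro ⟨T, hT, h1, h2⟩
    refine ⟨T, hT, h1, sT a b D, fun A hA hAe => le_of_eq ?_⟩
    obtain ⟨-, h3, h4⟩ := h2 A hA hAe
    unfold sT s
    rw [h3, h4]
  tfae_have 3 → 1 := by
    rintro ⟨T, hT, h1, M, h2⟩
    rw [e1]
    refine h31.1 ⟨T, hT, h1, 2 ^ (M + 2).toNat, fun A hA hAe hcl => ?_⟩
    obtain ⟨j, h3, h4, h5, h6⟩ := kap_pow hb hc (class_iff.2 hcl)
    have h7 := h2 A hA hAe
    rw [h3]
    refine Nat.pow_le_pow_right (by norm_num) ?_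
    have h8 : sT a b (D * ∏ p ∈ A, p) = (f (a * (D * ∏ p ∈ A, p : ℕ))
      (b * (D * ∏ p ∈ A, p : ℕ) ^ 2) : ℤ) + (f (-2 * (a * (D * ∏ p ∈ A, p : ℕ)))
        ((a * (D * ∏ p ∈ A, p : ℕ)) ^ 2 - 4 * (b * (D * ∏ p ∈ A, p : ℕ) ^ 2)) : ℤ) - 2 := rfl
    rw [h4, h5] at h8
    push_cast at h8
    omega
  tfae_finish

/-- linear growth -/
theorem lin_part (hb : b ≠ 0) (hc : a ^ 2 - 4 * b ≠ 0) (hD : Class a b D) (S : Set ℕ)
    (hS : ∀ p ∈ S, SplitOrInert a b p) :
    {p ∈ S | ¬ Admissible a b D p}.Infinite ↔ ∃ T ⊆ S, T.Infinite ∧ ∃ m, Linear a b D T m := by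
  constructor
  · intro h
    obtain ⟨T, hT, h1, C, hC, h2⟩ := grow hb hc (class_iff.1 hD) _ h
      (fun p hp => (si_iff p).1 (hS p hp.1)) (by
        refine Set.Finite.subset Set.finite_empty fun p hp => ?_
        exact hp.1.2 ⟨hS p hp.1.1, hp.2⟩)
    -- `C` is a power of two
    obtain ⟨A₀, hA₀, hA₀c⟩ := h1.exists_subset_card_eq 2
    have hA₀n : A₀.Nonempty := card_pos.1 (by omega)
    obtain ⟨h3, h4⟩ := h2 A₀ hA₀ (by rw [hA₀c]; exact even_two) hA₀n
    obtain ⟨j, h5, -, -, -⟩ := kap_pow hb hc (class_iff.2 h3)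
    obtain ⟨c₀, -, hc₀⟩ := (Nat.dvd_prime_pow Nat.prime_two).1 (Dvd.intro _ (h4.symm.trans h5) :
      C ∣ 2 ^ j)
    refine ⟨T, fun p hp => (hT hp).1, h1, s a b + 2 * c₀ - 2, fun A hA hAe hAn => ?_⟩
    obtain ⟨h6, h7⟩ := h2 A hA hAe hAn
    obtain ⟨j', h8, -, -, h9⟩ := kap_pow hb hc (class_iff.2 h6)
    refine ⟨class_iff.2 h6, ?_⟩
    rw [h8, hc₀, ← pow_add] at h7
    have e := Nat.pow_right_injective le_rfl h7
    have hpos := card_pos.2 hAn
    rw [h9, e]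
    push_cast [Nat.cast_sub (show 1 ≤ A.card from hpos)]
    ring
  · rintro ⟨T, hT, h1, m, h2⟩
    by_contra hf
    rw [Set.not_infinite] at hf
    have h3 : (T \ {p ∈ S | ¬ Admissible a b D p}).Infinite := h1.sdiff hf
    obtain ⟨T', hT', h4, h5⟩ := inf_adm hb hc (class_iff.1 hD) _ h3 (fun p hp => by
      by_contra hn
      exact hp.2 ⟨hT hp.1, fun h => hn ((adm_iff p).1 h)⟩)
    have hlin : ∀ n : ℕ, ∃ A : Finset ℕ, (A : Set ℕ) ⊆ T' ∧ A.card = n := fun n =>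
      h4.exists_subset_card_eq n
    have key : ∀ n : ℕ, 0 < n → sT a b D = 2 * (2 * n : ℕ) + m := by
      intro n hn
      obtain ⟨A, hA, hAc⟩ := hlin (2 * n)
      have hAe : Even A.card := by rw [hAc]; exact even_two_mul n
      obtain ⟨-, e1, e2⟩ := (same_iff hb hc hD _).2 (h5 A hA hAe)
      obtain ⟨-, e3⟩ := h2 A (fun p hp => (hT' (hA hp)).1) hAe (card_pos.1 (by omega))
      rw [hAc] at e3
      rw [← e3]
      unfold sT s
      rw [e1, e2]
    have k1 := key 1 one_pos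
    have k2 := key 2 two_pos
    push_cast at k1 k2
    omega

theorem dich (hb : b ≠ 0) (hc : a ^ 2 - 4 * b ≠ 0) (hD : Class a b D) (S : Set ℕ)
    (hS : ∀ p ∈ S, SplitOrInert a b p) (hi : S.Infinite) :
    ∃ T ⊆ S, T.Infinite ∧ (Constant a b D T ∨ ∃ m, Linear a b D T m) := by
  by_cases h : {p ∈ S | Admissible a b D p}.Infinite
  · obtain ⟨T, hT, h1, h2⟩ := ((const_part hb hc hD S hS).out 0 1).1 h
    exact ⟨T, hT, h1, Or.inl h2⟩
  · have h2 : {p ∈ S | ¬ Admissible a b D p}.Infinite := by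
      rw [Set.not_infinite] at h
      refine (hi.sdiff h).mono ?_
      rintro p ⟨h3, h4⟩
      exact ⟨h3, fun h5 => h4 ⟨h3, h5⟩⟩
    obtain ⟨T, hT, h1, m, h3⟩ := (lin_part hb hc hD S hS).1 h2
    exact ⟨T, hT, h1, Or.inr ⟨m, h3⟩⟩

/-- the rank is at most the Selmer rank -/
theorem rk_le (hb : b ≠ 0) (hc : a ^ 2 - 4 * b ≠ 0) (hD : Class a b D) :
    (rk (twist a b D) : ℤ) ≤ sT a b D := by
  obtain ⟨h1, h2, h3, h4⟩ := sel_cl hb hc (class_iff.1 hD)
  obtain ⟨j, e1, e2, e3, -⟩ := kap_pow hb hc hD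
  have hD0 : (D : ℤ) ≠ 0 := by exact_mod_cast hD.1.ne_zero
  have hb' : b * (D : ℤ) ^ 2 ≠ 0 := mul_ne_zero hb (pow_ne_zero 2 hD0)
  have hc' : (a * (D : ℤ)) ^ 2 - 4 * (b * (D : ℤ) ^ 2) ≠ 0 := by
    have e : (a * (D : ℤ)) ^ 2 - 4 * (b * (D : ℤ) ^ 2) = (a ^ 2 - 4 * b) * (D : ℤ) ^ 2 := by ring
    rw [e]
    exact mul_ne_zero hc (pow_ne_zero 2 hD0)
  have htw : Pool.Agent.U115.GE.twE a b D = twist a b D := by
    rw [Pool.Agent.U115.GE.twE_eq]
    rfl
  rw [htw, card_pow hb', card_pow hc', ← pow_add] at h4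
  rw [htw] at h3
  have hX0 : 0 < Nat.card {x : Pool.Agent.TH841.NF.D.Sha (twist a b D) // 2 • x = 0} :=
    Nat.card_pos_iff.2 ⟨⟨⟨0, smul_zero 2⟩⟩, h3⟩
  have h5 : 2 ^ (rk (twist a b D) + 2) ≤ 2 ^ (f (a * D) (b * D ^ 2) +
      f (-2 * (a * D)) ((a * D) ^ 2 - 4 * (b * D ^ 2))) := by
    refine le_trans ?_ h4
    have h6 : 2 ^ (rk (twist a b D) + 2) = 4 * 2 ^ rk (twist a b D) := by
      rw [pow_add]; ring
    rw [h6]
    exact Nat.le_mul_of_pos_right _ hX0
  have h7 := (Nat.pow_le_pow_iff_right (by norm_num : 1 < 2)).1 h5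
  unfold sT s
  omega

theorem zero_part (hb : b ≠ 0) (hc : a ^ 2 - 4 * b ≠ 0) (hD : Class a b D) (S : Set ℕ)
    (hS : ∀ p ∈ S, SplitOrInert a b p) (h0 : sT a b D = 0) :
    {p ∈ S | Admissible a b D p}.Infinite ↔ ∃ T ⊆ S, T.Infinite ∧
      ForAllEven T D fun _ D' => rk (twist a b D') = 0 ∧ sT a b D' = 0 := by
  have h := const_part hb hc hD S hS
  have h31 := h.out 2 0
  constructor
  · intro h1
    obtain ⟨T, hT, h2, h3⟩ := (h.out 0 1).1 h1
    refine ⟨T, hT, h2, fun A hA hAe => ?_⟩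
    obtain ⟨h4, h5, h6⟩ := h3 A hA hAe
    have e : sT a b (D * ∏ p ∈ A, p) = 0 := by
      rw [← h0]
      unfold sT s
      rw [h5, h6]
    have h7 := rk_le hb hc h4
    refine ⟨?_, e⟩
    rw [e] at h7
    omega
  · rintro ⟨T, hT, h2, h3⟩
    exact h31.1 ⟨T, hT, h2, 0, fun A hA hAe => (h3 A hA hAe).2.le⟩

end proof

/-- **The Selmer ranks of the twists with prime factors in an arbitrary set of primes.** -/
theorem result (a b : ℤ) (hb : b ≠ 0) (hc : a ^ 2 - 4 * b ≠ 0) (D : ℕ) (hD : Class a b D)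
    (S : Set ℕ) (hS : ∀ p ∈ S, SplitOrInert a b p) :
    (S.Infinite → ∃ T ⊆ S, T.Infinite ∧ (Constant a b D T ∨ ∃ m, Linear a b D T m)) ∧
    List.TFAE [{p ∈ S | Admissible a b D p}.Infinite,
      ∃ T ⊆ S, T.Infinite ∧ Constant a b D T,
      ∃ T ⊆ S, T.Infinite ∧ ∃ M : ℤ, ForAllEven T D fun _ D' => sT a b D' ≤ M] ∧
    ({p ∈ S | ¬ Admissible a b D p}.Infinite ↔ ∃ T ⊆ S, T.Infinite ∧ ∃ m, Linear a b D T m) ∧
    (sT a b D = 0 → ({p ∈ S | Admissible a b D p}.Infinite ↔ ∃ T ⊆ S, T.Infinite ∧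
      ForAllEven T D fun _ D' => rk (twist a b D') = 0 ∧ sT a b D' = 0)) :=
  ⟨dich hb hc hD S hS, const_part hb hc hD S hS, lin_part hb hc hD S hS,
    zero_part hb hc hD S hS⟩

end Pool.Agent.Results.MP_e2b281_nt.AffineSelmerRanks
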