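import Mathlib
import Pool.Agent.U974.GC.Cfg
import Pool.Agent.U115.GE.Ex
import Pool.Agent.U80.NP.Grp
import Pool.Agent.U739.GE.GOOD
import Pool.Agent.U796.GE.BND

/-!
# Ranks and Selmer ranks of the twists of whole finite families of elliptic curves with a point of order two by all the
# partial products of prime tuples, for a positive proportion of all tuples of shifts

`E_{a,b} : y² = x³ + a x² + b x` with integers `a`, `b`, neither `b` nor `a² - 4 b` a square; `E_{aD, bD²}` is its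
quadratic twist by `D`; `s` is the Selmer rank of the descent by the isogeny of degree two, as in the problem.

Let `F` be ANY finite set of such pairs `(a, b)`, `m ≥ 0` and `N ≥ 1`. There are numbers `R_e`, `e ∈ F` (products of
primes modulo which `b` and `a² - 4 b` are nonsquares), and a bound `B` such that in EVERY set `W` of at least `δ x`
integers of `[0, x]` at least the proportion `c(δ) > 0` of all the `x ^ m` vectors `h_1 < ... < h_m` have their entries
in `W` and satisfy: for EVERY graph `G` with the vertices `1, ..., m` there are `{d_e, d'_e} = {1, R_e}`, `e ∈ F`, such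
that for infinitely many `n` the numbers `p_i = n + h_i` are primes, `1` modulo `N`, at most `B` primes lie at distance
at most `Y` from `n` (for every `Y`), and for ALL the curves `e = (a, b) ∈ F` and ALL `S ⊆ {1, ..., m}`:

* `s(E_{aD, bD²}) = s(E_{a,b}) + 2 k_1(S)` for `D = d_e ∏_{i ∈ S} p_i`, `k_1(S)` the corank of the matrix
  `1 + Laplacian` of the subgraph `G[S]` over the field with two elements, and the rank of the twist is at most this;
* `s(E_{aD, bD²}) = s(E_{a,b}) + 2 k_0(S)` for `D = d'_e ∏_{i ∈ S} p_i`, `k_0(S)` the corank of the Laplacian of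
  `G[S]` (which is positive if `S` is not empty);
* if `s(E_{a,b}) = 0`: for `D = d_e ∏_{i ∈ S} p_i` the group `E_{aD, bD²}(ℚ)` is finite and `Ш[2^∞] = 0` if and only
  if `k_1(S) = 0`, that is, if the number of the rooted spanning forests of `G[S]` is odd; then `r = s = 0`, so that
  the parity `r ≡ s mod 2` of the problem holds.

For the graph without edges `k_1(S) = 0` for all `S`: for a positive proportion of all the `m`-tuples `h` there are
infinitely many prime tuples `(n + h_1, ..., n + h_m)` such that, for all the members of the family with `s = 0` at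
once, the rank and the Selmer rank of the twists by all the `2 ^ m` partial products (times `1` or times `R_e`) agree
and are `0`.

Proof. The descent is that of project GE (helper115 and others, `U115/GE`): the Selmer groups of the twists by products
of split and inert primes are given by the kernel of a matrix of quadratic symbols, with a diagonal `θ_e(p)` which is
not given by congruences. The prime tuples are those of `U974/PP` (Maynard–Tao, Ramsey, Paley graphs), with one value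
of the vector `(θ_e(p))_{e ∈ F}` for all the primes of the tuple. The products `R_e` of two inert primes are
nonresidues modulo the new primes and change `θ_e` (`U974/GC`).
-/

set_option autoImplicit false

open scoped Classical

namespace Pool.Agent.Results.MP_e2b281_nt.JointPrimeTuples

open Pool.Agent.TH841.NF.D (rk Sha)

/-- the curve `y² = x³ + a x² + b x` -/
def E (a b : ℤ) : WeierstrassCurve ℚ := { a₁ := 0, a₂ := (a : ℚ), a₃ := 0, a₄ := (b : ℚ), a₆ := 0 }

/-- the classes of the everywhere locally soluble quartics `N² = b₁ M⁴ + a M² e² + (b / b₁) e⁴` -/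
def classes (a b : ℤ) : Set ℤ :=
  {b₁ : ℤ | Squarefree b₁ ∧ b₁ ∣ b ∧
    (∃ N M e : ℝ, (M ≠ 0 ∨ e ≠ 0) ∧
      N ^ 2 = (b₁ : ℝ) * M ^ 4 + (a : ℝ) * M ^ 2 * e ^ 2 + ((b / b₁ : ℤ) : ℝ) * e ^ 4) ∧
    ∀ (p : ℕ) [Fact p.Prime], ∃ N M e : ℚ_[p], (M ≠ 0 ∨ e ≠ 0) ∧
      N ^ 2 = (b₁ : ℚ_[p]) * M ^ 4 + (a : ℚ_[p]) * M ^ 2 * e ^ 2
        + ((b / b₁ : ℤ) : ℚ_[p]) * e ^ 4}

/-- the exponent of the number of the classes -/
noncomputable def f (a b : ℤ) : ℕ := Nat.log 2 (classes a b).ncard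

/-- the Selmer rank of the descent by the isogeny of degree two, an integer -/
noncomputable def s (a b : ℤ) : ℤ := (f a b : ℤ) + (f (-2 * a) (a ^ 2 - 4 * b) : ℤ) - 2

/-- the rank and the Selmer rank have the same parity -/
def Parity (a b : ℤ) : Prop := (rk (E a b) : ℤ) ≡ s a b [ZMOD 2]

/-- the group of the rational points is finite and `Ш[2^∞] = 0` -/
def TrivialTwo (a b : ℤ) : Prop :=
  Finite (E a b).toAffine.Point ∧ ∀ (n : ℕ) (x : Sha (E a b)), 2 ^ n • x = 0 → x = 0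

/-- `n` is `1` modulo `8` and a nonzero square modulo the odd primes dividing `b (a² - 4 b)` -/
def Res (a b : ℤ) (n : ℕ) : Prop := n % 8 = 1 ∧ ∀ l : ℕ, l.Prime → l ≠ 2 →
  (l : ℤ) ∣ b * (a ^ 2 - 4 * b) → ¬ l ∣ n ∧ IsSquare (n : ZMod l)

/-- the inert primes -/
def Inert (a b : ℤ) (q : ℕ) : Prop := q ≠ 2 ∧ ¬ IsSquare (b : ZMod q) ∧
  ¬ IsSquare ((a ^ 2 - 4 * b : ℤ) : ZMod q)

/-- the corank of the matrix `g + Laplacian` of the subgraph of `G` induced on `S`, over the field with two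
elements -/
noncomputable def corank {m : ℕ} (G : SimpleGraph (Fin m)) (g : ZMod 2) (S : Finset (Fin m)) : ℕ :=
  S.card - (g • (1 : Matrix (S : Set (Fin m)) (S : Set (Fin m)) (ZMod 2)) +
    (G.induce (S : Set (Fin m))).lapMatrix (ZMod 2)).rank

/-- the law of the twists of `E_{a,b}` by `D = d ∏_{i ∈ S} p_i` with the matrices `g + Laplacian` -/
def Law (a b : ℤ) {m : ℕ} (G : SimpleGraph (Fin m)) (p : Fin m → ℕ) (g : ZMod 2) (d : ℕ) : Prop :=
  ∀ (S : Finset (Fin m)) (D : ℕ), D = d * ∏ i ∈ S, p i →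
    s (a * D) (b * D ^ 2) = s a b + 2 * corank G g S ∧
    (rk (E (a * D) (b * D ^ 2)) : ℤ) ≤ s a b + 2 * corank G g S ∧
    (s a b = 0 → (TrivialTwo (a * D) (b * D ^ 2) ↔ corank G g S = 0) ∧
      (corank G g S = 0 → rk (E (a * D) (b * D ^ 2)) = 0 ∧ Parity (a * D) (b * D ^ 2)))

/-- the property of the tuple `h`: for every graph `G` there are `{d_e, d'_e} = {1, R_e}`, `e ∈ F`, such that for
infinitely many `n` the numbers `n + h i` are primes, `1` modulo `N`, with at most `B` primes at distance at most `Y`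
from `n` (for every `Y`), and the laws hold for all `e ∈ F` -/
def AllGraphs (F : Finset (ℤ × ℤ)) (N B : ℕ) (R : ℤ × ℤ → ℕ) {m : ℕ} (h : Fin m → ℕ) : Prop :=
  ∀ G : SimpleGraph (Fin m), ∃ d d' : ℤ × ℤ → ℕ,
    (∀ e, d e = 1 ∧ d' e = R e ∨ d e = R e ∧ d' e = 1) ∧ ∀ Y : ℕ,
    {n : ℕ | (∀ i, (n + h i).Prime ∧ n + h i ≡ 1 [MOD N]) ∧
      {p : ℕ | p.Prime ∧ |(p : ℤ) - n| ≤ Y}.ncard ≤ B ∧
      ∀ e ∈ F, Law e.1 e.2 G (fun i => n + h i) 1 (d e) ∧
        Law e.1 e.2 G (fun i => n + h i) 0 (d' e)}.Infinite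

section proof

open Pool.Agent.U115.GE (SelSet sel sel_dvd HG kapG)

theorem dvd_of_sel {a b d : ℤ} (h : d ∈ SelSet a b) : d ∣ b := by
  have h1 : d.natAbs ∣ b.natAbs := by
    by_cases hb : b = 0
    · rw [hb]; exact dvd_zero _
    rw [← Nat.prod_primeFactors_of_squarefree (Int.squarefree_natAbs.2 h.1)]
    refine Finset.prod_primes_dvd _ (fun p hp => (Nat.prime_of_mem_primeFactors hp).prime)
      fun p hp => ?_
    have h2 := sel_dvd h (Nat.prime_of_mem_primeFactors hp)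
      (Int.natCast_dvd.2 (Nat.dvd_of_mem_primeFactors hp))
    exact Int.natCast_dvd.1 h2
  exact Int.natAbs_dvd_natAbs.1 h1

theorem classes_eq (a b : ℤ) : classes a b = SelSet a b := by
  have key : ∀ (d : ℤ), Squarefree d → d ∣ b → ∀ (K : Type) [Field K] [CharZero K],
      ((b / d : ℤ) : K) = (b : K) / (d : K) := by
    intro d hd hdb K _ _
    exact Int.cast_div hdb (by exact_mod_cast hd.ne_zero)
  ext d
  constructor
  · rintro ⟨h1, h2, h3, h4⟩
    rw [key d h1 h2 ℝ] at h3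
    refine ⟨h1, h3, fun p hp => ?_⟩
    have h5 := h4 p
    rw [key d h1 h2 ℚ_[p]] at h5
    exact h5
  · intro h
    have h2 := dvd_of_sel h
    obtain ⟨h1, h3, h4⟩ := h
    refine ⟨h1, h2, ?_, fun p hp => ?_⟩
    · rw [key d h1 h2 ℝ]
      exact h3
    · have h5 := h4 p
      rw [key d h1 h2 ℚ_[p]]
      exact h5

theorem card_pow {a b : ℤ} (hb : b ≠ 0) : sel a b = 2 ^ f a b := by
  have h1 : classes a b = Pool.Agent.U80.NP.Sel a b := Pool.Agent.U80.NP.qs_eq a b
  have h2 := Pool.Agent.U80.NP.ncard_pow (a := a) hb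
  unfold f sel
  rw [← classes_eq, h1]
  exact h2

theorem twE_eq (a b : ℤ) (D : ℕ) : Pool.Agent.U115.GE.twE a b D = E (a * D) (b * D ^ 2) := by
  rw [Pool.Agent.U115.GE.twE_eq]
  rfl

theorem two {m n : ℕ} (h : 2 ^ m = 2 ^ n) : m = n := Nat.pow_right_injective le_rfl h

/-- the law of one twist -/
theorem law_of {a b : ℤ} (nb : ¬ IsSquare b) (nc : ¬ IsSquare (a ^ 2 - 4 * b)) {m : ℕ} {P : Finset ℕ}
    (H : HG a b m P) {k D : ℕ} (hk : kapG a b m P = 2 ^ k) (hD : D = (∏ p ∈ P, p) * m) :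
    s (a * D) (b * D ^ 2) = s a b + 2 * k ∧
    (rk (E (a * D) (b * D ^ 2)) : ℤ) ≤ s a b + 2 * k ∧
    (s a b = 0 → (TrivialTwo (a * D) (b * D ^ 2) ↔ k = 0) ∧
      (k = 0 → rk (E (a * D) (b * D ^ 2)) = 0 ∧ Parity (a * D) (b * D ^ 2))) := by
  have hb0 : b ≠ 0 := H.hb
  have hc0 : a ^ 2 - 4 * b ≠ 0 := H.hc
  have hG := Pool.Agent.U739.GE.t_GOOD
  have hB := Pool.Agent.U796.GE.t_BND
  obtain ⟨h1, h2⟩ := H.bound hG hB hD
  have e1 := H.sel_eq hG
  have e2 := H.sel_eq' hG
  rw [← hD, hk] at e1 e2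
  rw [hk] at h2
  rw [card_pow (H.b0 hD), card_pow hb0, ← pow_add] at e1
  rw [card_pow (H.c0 hD), card_pow hc0, ← pow_add] at e2
  have f1 : f (a * D) (b * D ^ 2) = f a b + k := by
    have := two e1
    omega
  have f2 : f (-2 * (a * D)) ((a * D) ^ 2 - 4 * (b * D ^ 2)) = f (-2 * a) (a ^ 2 - 4 * b) + k := by
    have := two e2
    omega
  have hs : s (a * D) (b * D ^ 2) = s a b + 2 * k := by
    unfold s
    rw [f1, f2]
    push_cast
    ring
  have hrk : (rk (E (a * D) (b * D ^ 2)) : ℤ) ≤ s a b + 2 * k := by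
    rw [twE_eq] at h2
    have hX0 : 0 < Nat.card {x : Sha (Pool.Agent.U115.GE.twE a b D) // 2 • x = 0} :=
      Nat.card_pos_iff.2 ⟨⟨⟨0, smul_zero 2⟩⟩, h1⟩
    rw [twE_eq] at hX0
    rw [card_pow hb0, card_pow hc0, ← pow_mul, ← pow_add, ← pow_add] at h2
    have h3 : 2 ^ (rk (E (a * D) (b * D ^ 2)) + 2) ≤
        2 ^ (k * 2 + (f a b + f (-2 * a) (a ^ 2 - 4 * b))) := by
      refine le_trans ?_ h2
      have h4 : 2 ^ (rk (E (a * D) (b * D ^ 2)) + 2) = 4 * 2 ^ rk (E (a * D) (b * D ^ 2)) := by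
        rw [pow_add]; ring
      rw [h4]
      exact Nat.le_mul_of_pos_right _ hX0
    have h5 := (Nat.pow_le_pow_iff_right (by norm_num : 1 < 2)).1 h3
    unfold s
    omega
  refine ⟨hs, hrk, fun h0 => ⟨?_, fun hk0 => ?_⟩⟩
  · have h4 : sel a b * sel (-2 * a) (a ^ 2 - 4 * b) = 4 := by
      rw [card_pow hb0, card_pow hc0, ← pow_add]
      unfold s at h0
      have : f a b + f (-2 * a) (a ^ 2 - 4 * b) = 2 := by omega
      rw [this]
      norm_num
    have h5 := H.iff hG hB nb nc h4 hD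
    rw [hk, twE_eq] at h5
    unfold TrivialTwo
    rw [h5]
    constructor
    · intro h6
      exact two (h6.trans (pow_zero 2).symm)
    · rintro rfl
      rfl
  · have h6 : rk (E (a * D) (b * D ^ 2)) = 0 := by
      rw [h0, hk0] at hrk
      omega
    refine ⟨h6, ?_⟩
    unfold Parity
    rw [h6, hs, h0, hk0]
    rfl

theorem law_cfg {a b : ℤ} (nb : ¬ IsSquare b) (nc : ¬ IsSquare (a ^ 2 - 4 * b)) {m : ℕ}
    {G : SimpleGraph (Fin m)} {p : Fin m → ℕ} {θ : ZMod 2} {R : ℕ}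
    (h : Pool.Agent.U974.GC.Cfg a b G p θ R) (β : Bool) {g : ZMod 2} (hg : θ + (if β then 1 else 0) = g) :
    Law a b G p g (if β then R else 1) := by
  have hb0 : b ≠ 0 := by
    rintro rfl
    exact nb ⟨0, by norm_num⟩
  have hc0 : a ^ 2 - 4 * b ≠ 0 := by
    intro h
    exact nc (by rw [h]; exact ⟨0, by norm_num⟩)
  intro S D hD
  have h1 := h.kap hb0 hc0 β S
  rw [hg] at h1
  have h2 := h.prod β S
  have h3 : D = (∏ q ∈ S.image p, q) * Pool.Agent.U974.GC.aux R β := by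
    rw [hD, ← h2]
    rfl
  exact law_of nb nc (h.hg hb0 hc0 β S) h1 h3

theorem corank_of {m : ℕ} (G : SimpleGraph (Fin m)) (hG : ∀ i j, ¬ G.Adj i j) (S : Finset (Fin m)) :
    corank G 1 S = 0 := by
  unfold corank
  have h1 : (1 : ZMod 2) • (1 : Matrix (S : Set (Fin m)) (S : Set (Fin m)) (ZMod 2)) +
      (G.induce (S : Set (Fin m))).lapMatrix (ZMod 2) = 1 := by
    refine Matrix.ext_of_mulVec_single fun k => ?_
    generalize (Pi.single k 1 : ↥(S : Set (Fin m)) → ZMod 2) = v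
    funext i
    have h2 := Pool.Agent.U974.GC.lapG_apply G 1 S v i
    unfold Pool.Agent.U974.GC.lapG at h2
    rw [h2, Matrix.one_mulVec, one_mul]
    simp [hG]
  rw [h1, Matrix.rank_one]
  simp

theorem corank_bot {m : ℕ} (S : Finset (Fin m)) : corank (⊥ : SimpleGraph (Fin m)) 1 S = 0 :=
  corank_of _ (fun _ _ h => h) S

theorem s_X14 : s 13 128 = 0 := by
  obtain ⟨e1, e2⟩ := Pool.Agent.U115.GE.sel_X14
  have n1 : (128 : ℤ) ≠ 0 := by norm_num
  have n2 : ((13 : ℤ) ^ 2 - 4 * 128) ≠ 0 := by norm_num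
  rw [card_pow n1] at e1
  rw [card_pow n2] at e2
  have f1 : f 13 128 = 1 := two (by rw [e1]; norm_num)
  have f2 : f (-2 * 13) (13 ^ 2 - 4 * 128) = 1 := two (by rw [e2]; norm_num)
  unfold s
  rw [f1, f2]
  norm_num

end proof

/-- **Ranks and Selmer ranks in prime tuples, for whole finite families of curves at once.** -/
theorem result (F : Finset (ℤ × ℤ)) (hF : ∀ e ∈ F, ¬ IsSquare e.2 ∧ ¬ IsSquare (e.1 ^ 2 - 4 * e.2)) (m N : ℕ)
    (hN : 0 < N) :
    (∃ R : ℤ × ℤ → ℕ, (∀ e ∈ F, Squarefree (R e) ∧ Res e.1 e.2 (R e) ∧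
      ∀ q : ℕ, q.Prime → q ∣ R e → Inert e.1 e.2 q) ∧ ∃ B : ℕ, ∀ δ : ℝ, 0 < δ → ∃ c : ℝ, 0 < c ∧
      ∃ x₀ : ℕ, ∀ x : ℕ, x₀ ≤ x → ∀ W : Finset ℕ, (∀ w ∈ W, w ≤ x) → δ * x ≤ W.card →
        c * (x : ℝ) ^ m ≤ ({h : Fin m → ℕ | StrictMono h ∧ (∀ i, h i ∈ W) ∧
          AllGraphs F N B R h}.ncard : ℝ)) ∧
    (∀ S : Finset (Fin m), corank (⊥ : SimpleGraph (Fin m)) 1 S = 0) ∧ s 13 128 = 0 := by
  refine ⟨?_, corank_bot, s_X14⟩
  obtain ⟨R, hR, B, hB⟩ := Pool.Agent.U974.GC.main F hF m N hN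
  refine ⟨R, fun e he => ⟨(hR e he).1, (hR e he).2.1, fun q hq hqR => ((hR e he).2.2 q hq hqR).2⟩, B,
    fun δ hδ => ?_⟩
  obtain ⟨c, hc, x₀, hx⟩ := hB δ hδ
  refine ⟨c, hc, x₀, fun x hxx W hW hWc => (hx x hxx W hW hWc).trans ?_⟩
  have hfin : {h : Fin m → ℕ | StrictMono h ∧ (∀ i, h i ∈ W) ∧ AllGraphs F N B R h}.Finite := by
    refine (Fintype.piFinset (fun _ : Fin m => W)).finite_toSet.subset ?_
    rintro h ⟨-, h2, -⟩
    rw [Finset.mem_coe, Fintype.mem_piFinset]
    exact h2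
  have hsub : {h : Fin m → ℕ | StrictMono h ∧ (∀ i, h i ∈ W) ∧ Pool.Agent.U974.GC.AllCfg F N B R h} ⊆
      {h : Fin m → ℕ | StrictMono h ∧ (∀ i, h i ∈ W) ∧ AllGraphs F N B R h} := by
    rintro h ⟨g1, g2, g3⟩
    refine ⟨g1, g2, fun G => ?_⟩
    obtain ⟨θ, hθ⟩ := g3 G
    have hex : ∀ e : ℤ × ℤ, ∃ β : Bool, θ e + (if β then 1 else 0) = 1 ∧
        θ e + (if !β then 1 else 0) = 0 := fun e => Pool.Agent.U974.TW.exists_flip (θ e)
    choose β hβ1 hβ2 using hex
    refine ⟨fun e => if β e then R e else 1, fun e => if (!(β e)) then R e else 1, fun e => ?_,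
      fun Y => (hθ Y).mono ?_⟩
    · by_cases hbe : β e = true
      · right
        simp only [hbe]
        simp
      · left
        have hbe2 : β e = false := by simpa using hbe
        simp only [hbe2]
        simp
    · rintro n ⟨k1, k2, k3⟩
      refine ⟨k1, k2, fun e he => ?_⟩
      obtain ⟨nb, nc⟩ := hF e he
      exact ⟨law_cfg nb nc (k3 e he) (β e) (hβ1 e), law_cfg nb nc (k3 e he) (!(β e)) (hβ2 e)⟩
  exact_mod_cast Set.ncard_le_ncard hsub hfin

end Pool.Agent.Results.MP_e2b281_nt.JointPrimeTuples
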