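import Mathlib
import Pool.Agent.U79.GZ.FIN9
import Pool.Agent.U79.GZ.Pow

/-!
# Rank and Selmer rank are both `0` for 28.87 percent of the natural class of quadratic twists

`E_D : y² = x³ + a D x² + b D² x` is the quadratic twist by `D` of `E : y² = x³ + a x² + b x`; `s`, the Selmer rank,
is the one of the problem, `c = a² - 4 b`; neither `b`, `c` nor `-b`, `-c`, `-b c` is a square, `s(E) = 0`.

The class of the twists: ALL squarefree `D > 0` such that `b c` is a square modulo the prime factors of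
`D` (so `b` and `c` are both squares or both nonsquares; there is no other condition on the prime factors)
and `D` itself is `1` modulo `8` and a square modulo the odd bad primes. If `b c` is a square, then this is a set of
positive density: ALL squarefree `D` in some residue classes. The one hypothesis on `E`
besides `f₁ = f₂ = 1` (so `s(E) = 0`) is a description of the local images at the bad places (`Minimal`): there are
integers `w g` for the generators `g` (`-1` and the bad primes) such that, for all split primes `q`,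
`q ∏ g` (the product of the `g` such that `w g` is not a square modulo `q`) belongs to the local images at all bad
places (by the global duality theorems such `w` exist if `s(E) = 0`; this is not used). It is verified for
`y² = x³ - 4 x² + 2 x` (all `w g = 1`; complex multiplication by `ℤ[√-2]`) and for
`y² = x³ + 5 x² + 5 x` (`w (-1) = -1`, other `w g = 1`; `j = 2048`, no complex multiplication).

* For every `ε > 0` and large `X` at least the proportion `η - ε` of the `D ≤ X` of the class have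
  `s(E_D) = 0` and rank `0`, so that the answer to the question is positive for them,
  `η = ∏_{i ≥ 1} (1 - 2 ^ (-i)) = 0.2887...`.
* If `b c` is a square, these are a positive proportion of ALL the quadratic twists of `E`.
* For `y² = x³ - 4 x² + 2 x` and ALL squarefree `D` of both signs: `s(E_D)` is even exactly for `D` in the even
  half (`D > 0` odd or `D < 0` even), which has the proportion `1 / 2`; `s(E_D) = 2 k` for exactly the
  proportion `p_k / 2` of all squarefree integers, `p_k = 2 ^ k η / ∏_{1 ≤ i ≤ k} (2 ^ i - 1)²`; and for more than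
  `14.43` percent of ALL quadratic twists rank and Selmer rank are `0`.

`b c` is a square if and only if `ℚ(E[2]) = ℚ(E'[2])`; these are the curves with exactly one rational
isogeny of degree two which are excluded in the theorems of Klagsbrun - Lemke Oliver and Smith (2022) on all
quadratic twists (Smith 2025, arXiv 2503.17619, as we recall, has corank `0` for half of the twists of every
curve; the Selmer rank `s` of the descent by isogeny is not determined there).

Project GZ, led by helper79. Authors: helper97, helper46 (limit), helper876, helper394 (Bonferroni),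
helper979 (mean values), helper643, helper962 (law), helper780 (series), helper796, helper943 (boxes),
helper467, helper200 (sum over the boxes), helper978, helper44 (asymptotics), helper399 (labels), helper411
(few primes `3` modulo `4`), helper49 (size of the class), helper67 (Halász), helper263 (corrections, exact
descent), helper354, helper678 (descent), helper46, helper730, helper342, helper148, helper603 (Hilbert
symbols, duality), helper962, helper810 (examples), helper358 (odd half), helper491 (count), helper79 (plan,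
statements, assembly); with parts of the projects GD, GE (helper115), GX, GY (helper79 and co-authors), the
group structure of helper80 and the library of helper703.
-/

set_option autoImplicit false

open scoped Classical

namespace Pool.Agent.Results.MP_e2b281_nt.MinimalTwistsNaturalClass

open Pool.Agent.TH841.NF.D (rk)

/-- the curve `y² = x³ + a x² + b x` -/
def E (a b : ℤ) : WeierstrassCurve ℚ := { a₁ := 0, a₂ := (a : ℚ), a₃ := 0, a₄ := (b : ℚ), a₆ := 0 }

/-- the classes of the everywhere locally soluble quartics `N² = b₁ M⁴ + a M² e² + (b / b₁) e⁴` -/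
def classes (a b : ℤ) : Set ℤ :=
  {b₁ : ℤ | Squarefree b₁ ∧ b₁ ∣ b ∧
    (∃ N M e : ℝ, (M ≠ 0 ∨ e ≠ 0) ∧
      N ^ 2 = (b₁ : ℝ) * M ^ 4 + (a : ℝ) * M ^ 2 * e ^ 2 + ((b / b₁ : ℤ) : ℝ) * e ^ 4) ∧
    ∀ (p : ℕ) [Fact p.Prime], ∃ N M e : ℚ_[p], (M ≠ 0 ∨ e ≠ 0) ∧
      N ^ 2 = (b₁ : ℚ_[p]) * M ^ 4 + (a : ℚ_[p]) * M ^ 2 * e ^ 2
        + ((b / b₁ : ℤ) : ℚ_[p]) * e ^ 4}

/-- the exponent of the number of the classes -/
noncomputable def f (a b : ℤ) : ℕ := Nat.log 2 (classes a b).ncard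

/-- the Selmer rank of the descent by the isogeny of degree two, an integer -/
noncomputable def s (a b : ℤ) : ℤ := (f a b : ℤ) + (f (-2 * a) (a ^ 2 - 4 * b) : ℤ) - 2

/-- the rank and the Selmer rank have the same parity -/
def Parity (a b : ℤ) : Prop := (rk (E a b) : ℤ) ≡ s a b [ZMOD 2]

/-- the generators: `-1` and the prime factors of `M` -/
noncomputable def gens (M : ℕ) : Finset ℤ := insert (-1) (M.primeFactors.image fun l : ℕ => (l : ℤ))

/-- the product of the generators `g` such that `w g` is not a square modulo `q` -/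
noncomputable def v (M : ℕ) (w : ℤ → ℤ) (q : ℕ) : ℤ :=
  ∏ g ∈ gens M, if IsSquare (w g : ZMod q) then 1 else g

/-- the quartic of `d` has a nontrivial point over `K` -/
def Quartic (K : Type) [Field K] (a b d : ℤ) : Prop :=
  ∃ N M e : K, (M ≠ 0 ∨ e ≠ 0) ∧
    N ^ 2 = (d : K) * M ^ 4 + (a : K) * M ^ 2 * e ^ 2 + (b : K) / (d : K) * e ^ 4

/-- the hypothesis on the curve; `M` is a number divisible by `2`, `b` and `c = a² - 4 b` -/
structure Minimal (a b : ℤ) (M : ℕ) (w : ℤ → ℤ) : Prop where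
  pos : 0 < M
  two : 2 ∣ M
  b_dvd : b.natAbs ∣ M
  c_dvd : (a ^ 2 - 4 * b).natAbs ∣ M
  f_one : f a b = 1
  f_two : f (-2 * a) (a ^ 2 - 4 * b) = 1
  w_mem : ∀ g ∈ gens M, ∃ u : ℤ, (u = 1 ∨ u = -1) ∧ ∃ T ⊆ M.primeFactors, w g = u * ∏ l ∈ T, (l : ℤ)
  image : ∀ q : ℕ, q.Prime → ¬ q ∣ M → IsSquare (b : ZMod q) →
    IsSquare ((a ^ 2 - 4 * b : ℤ) : ZMod q) →
    Quartic ℝ a b (q * v M w q) ∧ ∀ (l : ℕ) [Fact l.Prime], l ∣ M → Quartic ℚ_[l] a b (q * v M w q)

/-- the natural class of the `D` -/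
def Class (a b : ℤ) (M D : ℕ) : Prop :=
  Squarefree D ∧ (D % 8 = 1 ∧ ∀ l : ℕ, l.Prime → l ≠ 2 → l ∣ M → jacobiSym D l = 1) ∧
  ∀ p : ℕ, p.Prime → p ∣ D → IsSquare ((b * (a ^ 2 - 4 * b) : ℤ) : ZMod p)

/-- the number of the `D ≤ X` of the class with the property `P` -/
noncomputable def num (a b : ℤ) (M : ℕ) (P : ℕ → Prop) (X : ℕ) : ℕ :=
  ((Finset.Icc 1 X).filter fun D => Class a b M D ∧ P D).card

/-- `η = 0.2887...` -/
noncomputable def η : ℝ := ∏' i : ℕ, (1 - (1 / 2 : ℝ) ^ (i + 1))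

/-- `p_k` -/
noncomputable def p (k : ℕ) : ℝ := 2 ^ k * η / (∏ i ∈ Finset.range k, ((2 : ℝ) ^ (i + 1) - 1)) ^ 2

/-- the squarefree integers of absolute value at most `X` -/
noncomputable def F (X : ℕ) : Finset ℤ := (Finset.Icc (-(X : ℤ)) X).filter fun D => Squarefree D

/-- the number of those with the property `P` -/
noncomputable def count (P : ℤ → Prop) (X : ℕ) : ℕ := ((F X).filter fun D => P D).card

/-- the proportion of the `D` with the property `P` among all squarefree integers is `γ` -/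
def Proportion (P : ℤ → Prop) (γ : ℝ) : Prop :=
  Filter.Tendsto (fun X : ℕ => (count P X : ℝ) / ((F X).card : ℝ)) Filter.atTop (nhds γ)

section proof

open Pool.Agent.U79.GZ
open Pool.Agent.U115.GE (SelSet sel)
open Pool.Agent.Y682 (gc)
open Pool.Agent.U79.GY (Mod cfg Sp)
open Pool.Agent.U255.GY (ff)

theorem classes_eq (a b : ℤ) : classes a b = SelSet a b := qs_sel a b

theorem card_pow {a b : ℤ} (hb : b ≠ 0) : sel a b = 2 ^ f a b := by
  have h := sel_pow (a := a) hb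
  have e : f a b = Nat.log 2 (sel a b) := by
    unfold f sel
    rw [classes_eq]
  rw [e]
  exact h

theorem two_inj {m n : ℕ} (h : 2 ^ m = 2 ^ n) : m = n := Nat.pow_right_injective le_rfl h

theorem gens_eq (M : ℕ) : gens M = Gn M := by
  ext g
  rw [Pool.Agent.U263.GZ.mem_Gn]
  unfold gens
  rw [Finset.mem_insert, Finset.mem_image]
  exact or_congr Iff.rfl ⟨fun ⟨l, h1, h2⟩ => ⟨l, h1, h2.symm⟩, fun ⟨l, h1, h2⟩ => ⟨l, h1, h2.symm⟩⟩

theorem v_eq (M : ℕ) (w : ℤ → ℤ) (q : ℕ) : v M w q = vv M w q := by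
  unfold v vv
  rw [gens_eq]

theorem cast_prod (T : Finset ℕ) : ∏ l ∈ T, (l : ℤ) = ((∏ l ∈ T, l : ℕ) : ℤ) := by
  push_cast
  rfl

theorem dat_of_min {a b : ℤ} {M : ℕ} {w : ℤ → ℤ} (h : Minimal a b M w) (nb : ¬ IsSquare b)
    (nc : ¬ IsSquare (a ^ 2 - 4 * b)) : Dat a b M w := by
  have hb0 : b ≠ 0 := by
    rintro rfl
    exact nb ⟨0, by norm_num⟩
  have hc0 : a ^ 2 - 4 * b ≠ 0 := by
    intro h
    exact nc ⟨0, by rw [h]; norm_num⟩
  have hM : Mod b (a ^ 2 - 4 * b) M := ⟨h.pos, h.two, h.b_dvd, h.c_dvd⟩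
  refine ⟨hM, nb, nc, ?_, ?_, ?_, ?_⟩
  · rw [card_pow hb0, h.f_one]
    norm_num
  · rw [card_pow hc0, h.f_two]
    norm_num
  · intro g hg
    rw [← gens_eq] at hg
    obtain ⟨u, hu, T, hT, he⟩ := h.w_mem g hg
    rw [Pool.Agent.U263.GZ.mem_ZZ]
    exact ⟨u, T, hu, hT, by rw [he, cast_prod]⟩
  · intro q hq
    obtain ⟨h1, h2, h3⟩ := ((t_All.cfg b (a ^ 2 - 4 * b) M hM nb nc).2.1 q hq.1).1 hq
    have h4 := h.image q hq.1 h1 h2 h3
    rw [v_eq] at h4
    exact h4

theorem min_of_dat {a b : ℤ} {M : ℕ} {w : ℤ → ℤ} (h : Dat a b M w) : Minimal a b M w := by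
  have nb := h.nb
  have nc := h.nc
  have hb0 : b ≠ 0 := by
    rintro rfl
    exact nb ⟨0, by norm_num⟩
  have hc0 : a ^ 2 - 4 * b ≠ 0 := by
    intro h
    exact nc ⟨0, by rw [h]; norm_num⟩
  have e1 := h.s1
  have e2 := h.s2
  rw [card_pow hb0] at e1
  rw [card_pow hc0] at e2
  refine ⟨h.hM.pos, h.hM.two, h.hM.hb, h.hM.hc, two_inj (by rw [e1]; norm_num),
    two_inj (by rw [e2]; norm_num), ?_, ?_⟩
  · intro g hg
    rw [gens_eq] at hg
    obtain ⟨u, T, hu, hT, he⟩ := Pool.Agent.U263.GZ.mem_ZZ.1 (h.hw g hg)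
    exact ⟨u, hu, T, hT, by rw [he, cast_prod]⟩
  · intro q hq h1 h2 h3
    have h4 := h.hL q (((t_All.cfg b (a ^ 2 - 4 * b) M h.hM nb nc).2.1 q hq).2 ⟨h1, h2, h3⟩)
    rw [v_eq]
    exact h4

theorem E_eq (a b : ℤ) : E a b = gc a b ℚ := rfl

theorem s_of {a b : ℤ} (hb : b ≠ 0) (hc : a ^ 2 - 4 * b ≠ 0) {m n : ℕ} (h1 : sel a b = 2 ^ m)
    (h2 : sel (-2 * a) (a ^ 2 - 4 * b) = 2 ^ n) : s a b = (m : ℤ) + n - 2 := by
  rw [card_pow hb] at h1
  rw [card_pow hc] at h2
  unfold s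
  rw [two_inj h1, two_inj h2]

theorem num_eq (a b : ℤ) (M : ℕ) (P : ℕ → Prop) (X : ℕ) :
    num a b M P X = ((CZ b (a ^ 2 - 4 * b) M X).filter fun D => P D).card := by
  unfold num CZ
  rw [Finset.filter_filter]
  rfl

theorem num_all {a b : ℤ} {M : ℕ} {P : ℕ → Prop} (hP : ∀ D, P D) (X : ℕ) :
    num a b M P X = (CZ b (a ^ 2 - 4 * b) M X).card := by
  rw [num_eq]
  exact congrArg Finset.card (Finset.filter_eq_self.2 fun D _ => hP D)

theorem num_true (a b : ℤ) (M : ℕ) (X : ℕ) :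
    num a b M (fun _ => True) X = (CZ b (a ^ 2 - 4 * b) M X).card := num_all (fun _ => trivial) X

/-- the general theorem -/
theorem general {a b : ℤ} {M : ℕ} {w : ℤ → ℤ} (h : Minimal a b M w) (nb : ¬ IsSquare b)
    (nc : ¬ IsSquare (a ^ 2 - 4 * b)) (n1 : ¬ IsSquare (-b)) (n2 : ¬ IsSquare (-(a ^ 2 - 4 * b)))
    (n3 : ¬ IsSquare (-(b * (a ^ 2 - 4 * b)))) :
    (∀ ε : ℝ, 0 < ε → ∃ X₀ : ℕ, ∀ X : ℕ, X₀ ≤ X →
      (η - ε) * (num a b M (fun _ => True) X : ℝ) ≤
        (num a b M (fun D => rk (E (a * D) (b * D ^ 2)) = 0 ∧ s (a * D) (b * D ^ 2) = 0 ∧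
          Parity (a * D) (b * D ^ 2)) X : ℝ)) ∧
    Filter.Tendsto (fun X : ℕ => (num a b M (fun _ => True) X : ℝ)) Filter.atTop Filter.atTop ∧
    (IsSquare (b * (a ^ 2 - 4 * b)) → ∃ (c : ℝ) (X₀ : ℕ), 0 < c ∧ ∀ X : ℕ, X₀ ≤ X →
      c * X ≤ (num a b M (fun _ => True) X : ℝ)) := by
  have hDat := dat_of_min h nb nc
  have hb0 : b ≠ 0 := by
    rintro rfl
    exact nb ⟨0, by norm_num⟩
  have hc0 : a ^ 2 - 4 * b ≠ 0 := by
    intro h
    exact nc ⟨0, by rw [h]; norm_num⟩
  refine ⟨fun ε hε => ?_, ?_, fun hbc => ?_⟩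
  · obtain ⟨X₀, hX₀⟩ := prop_ge t_All hDat n1 n2 n3 (P := fun D =>
      rk (E (a * D) (b * D ^ 2)) = 0 ∧ s (a * D) (b * D ^ 2) = 0 ∧ Parity (a * D) (b * D ^ 2))
      (fun D hD hG => by
        obtain ⟨k1, k2, k3, -, -⟩ := good t_All hDat hD hG
        have hD0 : (D : ℤ) ≠ 0 := by exact_mod_cast hD.1.ne_zero
        obtain ⟨g1, g2⟩ := Pool.Agent.U79.TF.gc_ne hb0 hc0 hD0
        have hs : s (a * D) (b * D ^ 2) = 0 := by
          rw [s_of g1 g2 (m := 1) (n := 1) (by rw [k1]; norm_num) (by rw [k2]; norm_num)]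
          norm_num
        refine ⟨k3, hs, ?_⟩
        unfold Parity
        have e : rk (E (a * D) (b * D ^ 2)) = 0 := k3
        rw [e, hs]
        rfl) hε
    refine ⟨X₀, fun X hX => ?_⟩
    rw [num_true, num_eq]
    exact hX₀ X hX
  · refine (card_top t_All hDat).congr fun X => ?_
    rw [num_true]
  · obtain ⟨c, X₀, hc, h1⟩ := many t_All hDat hbc
    refine ⟨c, X₀, hc, fun X hX => ?_⟩
    rw [num_true]
    exact h1 X hX

/-! ### the special curve -/

theorem p_eq (k : ℕ) : p k = et k := by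
  have h : ak k = 1 / ∏ i ∈ Finset.range k, ((2 : ℝ) ^ (i + 1) - 1) := by
    unfold ak
    rw [Finset.prod_div_distrib, Finset.prod_const_one]
  unfold et
  rw [h, one_div, inv_pow]
  unfold p η eta
  rw [div_eq_mul_inv]
  ring

theorem count_congr {P Q : ℤ → Prop} (h : ∀ D, Squarefree D → (P D ↔ Q D)) (X : ℕ) :
    count P X = count Q X := by
  unfold count
  exact congrArg Finset.card (Finset.filter_congr fun D hD => h D (Finset.mem_filter.1 hD).2)

theorem count_mono {P Q : ℤ → Prop} (h : ∀ D, Squarefree D → P D → Q D) (X : ℕ) :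
    count P X ≤ count Q X := by
  unfold count
  refine Finset.card_le_card fun D hD => ?_
  obtain ⟨m1, m2⟩ := Finset.mem_filter.1 hD
  exact Finset.mem_filter.2 ⟨m1, h D (Finset.mem_filter.1 m1).2 m2⟩

/-- the Selmer rank of the special curve -/
theorem s_special {D : ℤ} (hD : Squarefree D) :
    (Ev D → ∃ m : ℕ, s1 D = 2 ^ m ∧ s2 D = 2 ^ m ∧ s (-4 * D) (2 * D ^ 2) = 2 * (m : ℤ) - 2) ∧
    (¬ Ev D → ¬ Even (s (-4 * D) (2 * D ^ 2))) := by
  have h0 := hD.ne_zero
  have hB : (2 : ℤ) * D ^ 2 ≠ 0 := by positivity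
  have e1 : (-2 : ℤ) * (-4 * D) = 8 * D := by ring
  have e2 : (-4 * D) ^ 2 - 4 * (2 * D ^ 2) = 8 * D ^ 2 := by ring
  have hC : (-4 * D) ^ 2 - 4 * (2 * D ^ 2) ≠ 0 := by rw [e2]; positivity
  have hC8 : (8 : ℤ) * D ^ 2 ≠ 0 := by positivity
  have m1 : s1 D = 2 ^ Nat.log 2 (s1 D) := sel_pow hB
  have m2 : s2 D = 2 ^ Nat.log 2 (s2 D) := sel_pow hC8
  have hs := s_of hB hC (m := Nat.log 2 (s1 D)) (n := Nat.log 2 (s2 D)) m1
    (by rw [e1, e2]; exact m2)
  obtain ⟨c1, c2⟩ := s_cases t_Law hD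
  refine ⟨fun h => ⟨Nat.log 2 (s1 D), m1, ?_, ?_⟩, fun h => ?_⟩
  · rw [← c1 h]
    exact m1
  · rw [hs, ← c1 h]
    ring
  · rw [hs]
    rcases c2 h with h3 | h3
    · have h4 : Nat.log 2 (s1 D) = Nat.log 2 (s2 D) + 1 := by
        refine two_inj ?_
        rw [← m1, pow_succ, ← m2, h3, mul_comm]
      rw [h4]
      push_cast
      rw [Int.not_even_iff_odd]
      exact ⟨(Nat.log 2 (s2 D) : ℤ) - 1, by ring⟩
    · have h4 : Nat.log 2 (s2 D) = Nat.log 2 (s1 D) + 1 := by
        refine two_inj ?_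
        rw [← m2, pow_succ, ← m1, h3, mul_comm]
      rw [h4]
      push_cast
      rw [Int.not_even_iff_odd]
      exact ⟨(Nat.log 2 (s1 D) : ℤ) - 1, by ring⟩

theorem s_tt {D : ℤ} (hD : Squarefree D) (k : ℕ) :
    s (-4 * D) (2 * D ^ 2) = 2 * (k : ℤ) ↔ Tt k D := by
  obtain ⟨c1, c2⟩ := s_special hD
  rw [tt_ev t_Law hD]
  constructor
  · intro h
    by_cases hE : Ev D
    · obtain ⟨m, h1, -, h3⟩ := c1 hE
      refine ⟨hE, ?_⟩
      rw [h] at h3
      have : m = k + 1 := by omega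
      rw [← this]
      exact h1
    · exact absurd ⟨(k : ℤ), by rw [h]; ring⟩ (c2 hE)
  · rintro ⟨hE, h⟩
    obtain ⟨m, h1, -, h3⟩ := c1 hE
    have : m = k + 1 := two_inj (h1.symm.trans h)
    rw [h3, this]
    push_cast
    ring

theorem s_even {D : ℤ} (hD : Squarefree D) : Even (s (-4 * D) (2 * D ^ 2)) ↔ Ev D := by
  obtain ⟨c1, c2⟩ := s_special hD
  constructor
  · intro h
    by_contra hE
    exact c2 hE h
  · intro h
    obtain ⟨m, -, -, h3⟩ := c1 h
    rw [h3]
    exact ⟨(m : ℤ) - 1, by ring⟩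

end proof

/-- **Rank and Selmer rank are `0` for a positive proportion of the natural class of twists.** -/
theorem result :
    (∀ (a b : ℤ) (M : ℕ) (w : ℤ → ℤ), Minimal a b M w → ¬ IsSquare b → ¬ IsSquare (a ^ 2 - 4 * b) →
      ¬ IsSquare (-b) → ¬ IsSquare (-(a ^ 2 - 4 * b)) → ¬ IsSquare (-(b * (a ^ 2 - 4 * b))) →
      (∀ ε : ℝ, 0 < ε → ∃ X₀ : ℕ, ∀ X : ℕ, X₀ ≤ X →
        (η - ε) * (num a b M (fun _ => True) X : ℝ) ≤
          (num a b M (fun D => rk (E (a * D) (b * D ^ 2)) = 0 ∧ s (a * D) (b * D ^ 2) = 0 ∧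
            Parity (a * D) (b * D ^ 2)) X : ℝ)) ∧
      Filter.Tendsto (fun X : ℕ => (num a b M (fun _ => True) X : ℝ)) Filter.atTop Filter.atTop ∧
      (IsSquare (b * (a ^ 2 - 4 * b)) → ∃ (c : ℝ) (X₀ : ℕ), 0 < c ∧ ∀ X : ℕ, X₀ ≤ X →
        c * X ≤ (num a b M (fun _ => True) X : ℝ))) ∧
    Minimal (-4) 2 8 (fun _ => 1) ∧ Minimal 5 5 10 (fun g => if g = -1 then -1 else 1) ∧
    (∀ k : ℕ, Proportion (fun D => s (-4 * D) (2 * D ^ 2) = 2 * (k : ℤ)) (p k / 2)) ∧
    Proportion (fun D => Even (s (-4 * D) (2 * D ^ 2))) (1 / 2) ∧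
    HasSum p 1 ∧
    (∃ X₀ : ℕ, ∀ X : ℕ, X₀ ≤ X → 0.1443 * ((F X).card : ℝ) ≤
      (count (fun D => rk (E (-4 * D) (2 * D ^ 2)) = 0 ∧ s (-4 * D) (2 * D ^ 2) = 0 ∧
        Parity (-4 * D) (2 * D ^ 2)) X : ℝ)) ∧
    0.2887 < η ∧ η < 0.2888 := by
  obtain ⟨-, l1, l2⟩ := Pool.Agent.U97.GZ.t_LIM
  refine ⟨fun a b M w h nb nc n1 n2 n3 => general h nb nc n1 n2 n3,
    min_of_dat Pool.Agent.U962.GZ.t_EX1, min_of_dat Pool.Agent.U810.GZ.EX2.t_EX2, fun k => ?_, ?_,
    ?_, ?_, l1, l2⟩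
  · have h := Pool.Agent.U79.GZ.main_t Pool.Agent.U79.GZ.t_Law k
    rw [← p_eq] at h
    refine h.congr fun X => ?_
    have e : count (fun D => s (-4 * D) (2 * D ^ 2) = 2 * (k : ℤ)) X =
        count (Pool.Agent.U79.GZ.Tt k) X := count_congr (fun D hD => s_tt hD k) X
    rw [e]
    rfl
  · have h := Pool.Agent.U79.GZ.ev_half Pool.Agent.U79.GZ.t_Law.sqf
    refine h.congr fun X => ?_
    have e : count (fun D => Even (s (-4 * D) (2 * D ^ 2))) X = count Pool.Agent.U79.GZ.Ev X :=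
      count_congr (fun D hD => s_even hD) X
    rw [e]
    rfl
  · have h : p = Pool.Agent.U79.GZ.et := funext p_eq
    rw [h]
    exact Pool.Agent.U780.GZ.t_SUM
  · have h := Pool.Agent.U79.GZ.main_t Pool.Agent.U79.GZ.t_Law 0
    have e0 : Pool.Agent.U79.GZ.et 0 = Pool.Agent.U79.GZ.eta := by
      unfold Pool.Agent.U79.GZ.et Pool.Agent.U79.GZ.ak
      simp
    have h1 : (0.1443 : ℝ) < Pool.Agent.U79.GZ.et 0 / 2 := by
      rw [e0]
      linarith
    obtain ⟨X₀, hX₀⟩ := Filter.eventually_atTop.1 (h.eventually (lt_mem_nhds h1))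
    refine ⟨X₀, fun X hX => ?_⟩
    have h2 : 0.1443 < (count (Pool.Agent.U79.GZ.Tt 0) X : ℝ) / ((F X).card : ℝ) := hX₀ X hX
    have h3 : count (Pool.Agent.U79.GZ.Tt 0) X ≤
        count (fun D => rk (E (-4 * D) (2 * D ^ 2)) = 0 ∧ s (-4 * D) (2 * D ^ 2) = 0 ∧
          Parity (-4 * D) (2 * D ^ 2)) X := by
      refine count_mono (fun D hD hT => ?_) X
      have k1 : rk (E (-4 * D) (2 * D ^ 2)) = 0 := (Pool.Agent.U79.GZ.mi_of_tt hD.ne_zero hT).2.2.1
      have k2 : s (-4 * D) (2 * D ^ 2) = 0 := by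
        rw [(s_tt hD 0).2 hT]
        norm_num
      refine ⟨k1, k2, ?_⟩
      unfold Parity
      rw [k1, k2]
      rfl
    by_cases h4 : ((F X).card : ℝ) = 0
    · rw [h4, mul_zero]
      positivity
    · have h5 : (0 : ℝ) < ((F X).card : ℝ) := lt_of_le_of_ne (Nat.cast_nonneg _) (Ne.symm h4)
      rw [lt_div_iff₀ h5] at h2
      refine h2.le.trans ?_
      exact_mod_cast h3

end Pool.Agent.Results.MP_e2b281_nt.MinimalTwistsNaturalClass
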