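import Mathlib
import Pool.Agent.U115.GE.DensK
import Pool.Agent.U115.GE.Ex
import Pool.Agent.U80.NP.Grp
import Pool.Agent.U80.NP.Dual

/-!
# The law of the Selmer rank of the descent by 2-isogeny in families of quadratic twists, and parity

`E_D : y² = x³ + a D x² + b D² x` is the quadratic twist by `D` of `E : y² = x³ + a x² + b x`, where neither
`b` nor `c = a² - 4 b` is a square. `f₁`, `f₂` and the Selmer rank `s = f₁ + f₂ - 2` are those of the problem.

A prime is split if it is `1` modulo `8` and a nonzero square modulo all the odd primes dividing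
`b c`, and inert if it is odd and neither `b` nor `c` is a square modulo it. `D` runs over the products of
different split and inert primes, any number of each, with `D = 1` modulo `8` and `D` a square modulo
all the odd primes dividing `b c`. `k(D)` is the dimension of the kernel of the symmetric matrix `mat D` over
the field with two elements with rows and columns indexed by the split prime factors of `D`
(quadratic residue symbols between the prime factors of `D`, and the quadratic character of the roots of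
`x² + a x + b` on the diagonal).

* `f₁(E_D) = f₁(E) + k(D)`, `f₂(E_D) = f₂(E) + k(D)`, so `s(E_D) = s(E) + 2 k(D)`: all the Selmer ranks of
  the family have the parity of `s(E)`, and the question for `E_D` is whether the rank of `E_D` has
  the parity of `s(E)`.
* The Selmer rank of `E_D` is `s(E) + 2 k` for exactly the proportion
  `c_k = ∏_{i ≥ 0} (1 - 2^{-(2i+1)}) / ∏_{1 ≤ i ≤ k} (2 ^ i - 1)` of the `D` of the class, `k = 0, 1, 2, …`;
  the sum of the `c_k` is `1`, and `c_0 = c_1 = 0.4194...`.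
* If `s(E) = 0`, then for all the `D` with `k(D) = 0`, hence for at least the proportion `0.4194...` of the
  class, the rank and the Selmer rank of `E_D` are both `0` and have the same parity. The
  curve `X_0(14)` (`a = 13`, `b = 128`) is an example.

Authors: helper115 (plan, descent, statements), helper295, helper439, helper2, helper643, helper674,
helper234, helper158, helper998, helper798, helper756, helper79, helper958, helper388 (the law of the
coranks of the matrices for a general modulus, projects GD and GDK), helper796 (the bound of the rank by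
the Selmer groups), helper739 (good primes), helper80 (the group structure).
-/

set_option autoImplicit false

open scoped Classical

namespace Pool.Agent.Results.MP_e2b281_nt.SelmerRankLaw

open Pool.Agent.TH841.NF.D (rk)

/-- the curve `y² = x³ + a x² + b x` -/
def E (a b : ℤ) : WeierstrassCurve ℚ := { a₁ := 0, a₂ := (a : ℚ), a₃ := 0, a₄ := (b : ℚ), a₆ := 0 }

/-- the classes of the everywhere locally soluble quartics `N² = b₁ M⁴ + a M² e² + (b / b₁) e⁴` -/
def classes (a b : ℤ) : Set ℤ :=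
  {b₁ : ℤ | Squarefree b₁ ∧ b₁ ∣ b ∧
    (∃ N M e : ℝ, (M ≠ 0 ∨ e ≠ 0) ∧
      N ^ 2 = (b₁ : ℝ) * M ^ 4 + (a : ℝ) * M ^ 2 * e ^ 2 + ((b / b₁ : ℤ) : ℝ) * e ^ 4) ∧
    ∀ (p : ℕ) [Fact p.Prime], ∃ N M e : ℚ_[p], (M ≠ 0 ∨ e ≠ 0) ∧
      N ^ 2 = (b₁ : ℚ_[p]) * M ^ 4 + (a : ℚ_[p]) * M ^ 2 * e ^ 2
        + ((b / b₁ : ℤ) : ℚ_[p]) * e ^ 4}

/-- the exponent of the number of the classes -/
noncomputable def f (a b : ℤ) : ℕ := Nat.log 2 (classes a b).ncard

/-- the Selmer rank of the descent by the isogeny of degree two, an integer -/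
noncomputable def s (a b : ℤ) : ℤ := (f a b : ℤ) + (f (-2 * a) (a ^ 2 - 4 * b) : ℤ) - 2

/-- the rank and the Selmer rank have the same parity -/
def Parity (a b : ℤ) : Prop := (rk (E a b) : ℤ) ≡ s a b [ZMOD 2]

/-- `n` is `1` modulo `8` and a nonzero square modulo the odd primes dividing `b (a² - 4 b)` -/
def Res (a b : ℤ) (n : ℕ) : Prop := n % 8 = 1 ∧ ∀ l : ℕ, l.Prime → l ≠ 2 →
  (l : ℤ) ∣ b * (a ^ 2 - 4 * b) → ¬ l ∣ n ∧ IsSquare (n : ZMod l)

/-- the inert primes -/
def Inert (a b : ℤ) (q : ℕ) : Prop := q ≠ 2 ∧ ¬ IsSquare (b : ZMod q) ∧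
  ¬ IsSquare ((a ^ 2 - 4 * b : ℤ) : ZMod q)

/-- the class of the numbers `D` -/
def Class (a b : ℤ) (D : ℕ) : Prop := Squarefree D ∧ Res a b D ∧
  ∀ p ∈ D.primeFactors, Res a b p ∨ Inert a b p

/-- the split prime factors of `D` -/
noncomputable def split (a b : ℤ) (D : ℕ) : Finset ℕ := D.primeFactors.filter fun p => Res a b p

/-- `1` if `m` is not a square modulo `p`, and `0` if it is -/
noncomputable def nonsq (p m : ℕ) : ZMod 2 := if IsSquare (m : ZMod p) then 0 else 1

/-- `1` if no root of `x² + a x + b` modulo `p` is a square modulo `p`, and `0` otherwise -/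
noncomputable def theta (a b : ℤ) (p : ℕ) : ZMod 2 :=
  if ∀ x : ZMod p, x ^ 2 + (a : ZMod p) * x + (b : ZMod p) = 0 → ¬ IsSquare x then 1 else 0

/-- The matrix over the field with two elements, with rows and columns indexed by the split prime
factors of `D`: the entry at `(i, j)` is `nonsq i j` for `i ≠ j`, and the entry at `(i, i)` is the sum
of `theta i` and of the `nonsq i l` for all the prime factors `l ≠ i` of `D`. -/
noncomputable def mat (a b : ℤ) (D : ℕ) : Matrix (split a b D) (split a b D) (ZMod 2) :=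
  Matrix.of fun i j =>
    if i = j then theta a b i + ∑ l ∈ D.primeFactors.erase i, nonsq i l else nonsq i j

/-- the dimension of the kernel of the matrix -/
noncomputable def k (a b : ℤ) (D : ℕ) : ℕ := (split a b D).card - (mat a b D).rank

/-- the number of the `D ≤ X` of the class with the property `P` -/
noncomputable def num (a b : ℤ) (P : ℕ → Prop) (X : ℕ) : ℕ :=
  ((Finset.Icc 1 X).filter fun D => Class a b D ∧ P D).card

/-- the limit proportions -/
noncomputable def c (j : ℕ) : ℝ :=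
  (∏' i : ℕ, (1 - (1 / 2 : ℝ) ^ (2 * i + 1))) / ∏ i ∈ Finset.range j, ((2 : ℝ) ^ (i + 1) - 1)

section proof

open Pool.Agent.U115.GE (SelSet sel sel_dvd)

theorem class_iff (a b : ℤ) (D : ℕ) : Class a b D ↔ Pool.Agent.U115.GE.Class a b D := by
  refine and_congr_right fun _ => and_congr_right fun _ => forall₂_congr fun p hp => ?_
  have hpp := Nat.prime_of_mem_primeFactors hp
  exact or_congr ⟨fun h => ⟨hpp, h⟩, fun h => h.2⟩ ⟨fun h => ⟨hpp, h⟩, fun h => h.2⟩

theorem theta_eq (a b : ℤ) (p : ℕ) : theta a b p = Pool.Agent.U115.GE.thetaG a b p := by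
  unfold theta Pool.Agent.U115.GE.thetaG Pool.Agent.U115.GE.RtG
  simp only [Nat.cast_one, mul_one, one_pow]

theorem mat_eq (a b : ℤ) (D : ℕ) : mat a b D = Pool.Agent.U115.GE.mat a b D := by
  ext i j
  have hL : mat a b D i j = if i = j then theta a b i + ∑ l ∈ D.primeFactors.erase i, nonsq i l
    else nonsq i j := rfl
  have hR : Pool.Agent.U115.GE.mat a b D i j =
      if (i : ℕ) = j then Pool.Agent.U115.GE.thetaG a b i +
        ∑ q ∈ Pool.Agent.U115.GE.ine a b D, Pool.Agent.Y698.SG.nq i q +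
        ∑ p ∈ (Pool.Agent.U115.GE.spl a b D).erase i, Pool.Agent.Y698.SG.nq i p
      else Pool.Agent.Y698.SG.nq i j := rfl
  rw [hL, hR]
  by_cases hij : i = j
  · rw [if_pos hij, if_pos (congrArg Subtype.val hij), theta_eq]
    have h1 : D.primeFactors.erase i =
        Pool.Agent.U115.GE.ine a b D ∪ (Pool.Agent.U115.GE.spl a b D).erase i := by
      have h2 : D.primeFactors = Pool.Agent.U115.GE.ine a b D ∪ Pool.Agent.U115.GE.spl a b D := by
        unfold Pool.Agent.U115.GE.ine Pool.Agent.U115.GE.spl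
        rw [Finset.union_comm]
        exact (Finset.filter_union_filter_not_eq _ _).symm
      conv_lhs => rw [h2]
      rw [Finset.erase_union_distrib, Finset.erase_eq_of_notMem
        (fun h => Finset.disjoint_left.1 (Pool.Agent.U115.GE.spl_ine a b D) h i.2)]
    rw [h1, Finset.sum_union (Finset.disjoint_of_subset_right (Finset.erase_subset _ _)
      (Pool.Agent.U115.GE.spl_ine a b D)), ← add_assoc]
    rfl
  · rw [if_neg hij, if_neg (fun h => hij (Subtype.ext h))]
    rfl

theorem k_eq (a b : ℤ) (D : ℕ) : k a b D = Pool.Agent.U115.GE.cork a b D := by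
  unfold k Pool.Agent.U115.GE.cork
  rw [mat_eq]
  rfl

theorem dvd_of_sel {a b d : ℤ} (h : d ∈ SelSet a b) : d ∣ b := by
  have h1 : d.natAbs ∣ b.natAbs := by
    by_cases hb : b = 0
    · rw [hb]; exact dvd_zero _
    rw [← Nat.prod_primeFactors_of_squarefree (Int.squarefree_natAbs.2 h.1)]
    refine Finset.prod_primes_dvd _ (fun p hp => (Nat.prime_of_mem_primeFactors hp).prime)
      fun p hp => ?_
    have h2 := sel_dvd h (Nat.prime_of_mem_primeFactors hp)
      (Int.natCast_dvd.2 (Nat.dvd_of_mem_primeFactors hp))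
    exact Int.natCast_dvd.1 h2
  exact Int.natAbs_dvd_natAbs.1 h1

theorem classes_eq (a b : ℤ) : classes a b = SelSet a b := by
  have key : ∀ (d : ℤ), Squarefree d → d ∣ b → ∀ (K : Type) [Field K] [CharZero K],
      ((b / d : ℤ) : K) = (b : K) / (d : K) := by
    intro d hd hdb K _ _
    exact Int.cast_div hdb (by exact_mod_cast hd.ne_zero)
  ext d
  constructor
  · rintro ⟨h1, h2, h3, h4⟩
    rw [key d h1 h2 ℝ] at h3
    refine ⟨h1, h3, fun p hp => ?_⟩
    have h5 := h4 p
    rw [key d h1 h2 ℚ_[p]] at h5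
    exact h5
  · intro h
    have h2 := dvd_of_sel h
    obtain ⟨h1, h3, h4⟩ := h
    refine ⟨h1, h2, ?_, fun p hp => ?_⟩
    · rw [key d h1 h2 ℝ]
      exact h3
    · have h5 := h4 p
      rw [key d h1 h2 ℚ_[p]]
      exact h5

theorem card_pow {a b : ℤ} (hb : b ≠ 0) : sel a b = 2 ^ f a b := by
  have h1 : classes a b = Pool.Agent.U80.NP.Sel a b := Pool.Agent.U80.NP.qs_eq a b
  have h2 := Pool.Agent.U80.NP.ncard_pow (a := a) hb
  unfold f sel
  rw [← classes_eq, h1]
  exact h2

theorem num_eq {a b : ℤ} {P Q : ℕ → Prop} (h : ∀ D, Class a b D → (P D ↔ Q D)) (X : ℕ) :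
    num a b P X = ((Finset.Icc 1 X).filter fun D => Pool.Agent.U115.GE.Class a b D ∧ Q D).card := by
  unfold num
  refine congrArg Finset.card (Finset.ext fun D => ?_)
  rw [Finset.mem_filter, Finset.mem_filter]
  refine and_congr_right fun _ => ?_
  rw [← class_iff]
  exact and_congr_right fun hD => h D hD

theorem num_of {a b : ℤ} {P : ℕ → Prop} (hP : ∀ D, P D) (X : ℕ) :
    num a b P X = ((Finset.Icc 1 X).filter fun D => Pool.Agent.U115.GE.Class a b D).card := by
  unfold num
  refine congrArg Finset.card (Finset.ext fun D => ?_)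
  rw [Finset.mem_filter, Finset.mem_filter, class_iff]
  have := hP D
  tauto

theorem num_true {a b : ℤ} (X : ℕ) :
    num a b (fun _ => True) X =
      ((Finset.Icc 1 X).filter fun D => Pool.Agent.U115.GE.Class a b D).card :=
  num_of (fun _ => trivial) X

theorem num_mono {a b : ℤ} {P Q : ℕ → Prop} (h : ∀ D, Class a b D → P D → Q D) (X : ℕ) :
    num a b P X ≤ num a b Q X := by
  unfold num
  refine Finset.card_le_card fun D hD => ?_
  rw [Finset.mem_filter] at hD ⊢
  exact ⟨hD.1, hD.2.1, h D hD.2.1 hD.2.2⟩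

theorem twE_eq (a b : ℤ) (D : ℕ) : Pool.Agent.U115.GE.twE a b D = E (a * D) (b * D ^ 2) := by
  rw [Pool.Agent.U115.GE.twE_eq]
  rfl

end proof

/-- **The law of the Selmer rank and parity.** -/
theorem result (a b : ℤ) (hb : ¬ IsSquare b) (hc : ¬ IsSquare (a ^ 2 - 4 * b)) :
    (∀ D : ℕ, Class a b D →
      f (a * D) (b * D ^ 2) = f a b + k a b D ∧
      f (-2 * (a * D)) ((a * D) ^ 2 - 4 * (b * D ^ 2)) = f (-2 * a) (a ^ 2 - 4 * b) + k a b D ∧
      s (a * D) (b * D ^ 2) = s a b + 2 * k a b D ∧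
      (rk (E (a * D) (b * D ^ 2)) : ℤ) ≤ s a b + 2 * k a b D ∧
      (Parity (a * D) (b * D ^ 2) ↔ (rk (E (a * D) (b * D ^ 2)) : ℤ) ≡ s a b [ZMOD 2])) ∧
    (∀ j : ℕ, Filter.Tendsto
      (fun X : ℕ => (num a b (fun D => s (a * D) (b * D ^ 2) = s a b + 2 * j) X : ℝ) /
        (num a b (fun _ => True) X : ℝ)) Filter.atTop (nhds (c j))) ∧
    HasSum c 1 ∧ 0.4194 < c 0 ∧ c 0 < 0.4195 ∧
    (s a b = 0 →
      (∀ D : ℕ, Class a b D → k a b D = 0 → rk (E (a * D) (b * D ^ 2)) = 0 ∧
        s (a * D) (b * D ^ 2) = 0 ∧ Parity (a * D) (b * D ^ 2)) ∧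
      ∀ ε : ℝ, 0 < ε → ∃ X₀ : ℕ, ∀ X : ℕ, X₀ ≤ X →
        (c 0 - ε) * (num a b (fun _ => True) X : ℝ) ≤
          (num a b (fun D => Parity (a * D) (b * D ^ 2)) X : ℝ)) ∧
    s 13 128 = 0 := by
  have hb0 : b ≠ 0 := by
    rintro rfl
    exact hb ⟨0, by norm_num⟩
  have hc0 : a ^ 2 - 4 * b ≠ 0 := by
    intro h
    exact hc ⟨0, by rw [h]; norm_num⟩
  have hG := Pool.Agent.U739.GE.t_GOOD
  have hB := Pool.Agent.U796.GE.t_BND
  have two : ∀ m n : ℕ, 2 ^ m = 2 ^ n → m = n := fun m n h => Nat.pow_right_injective le_rfl h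
  -- the structure
  have key : ∀ D : ℕ, Class a b D →
      f (a * D) (b * D ^ 2) = f a b + k a b D ∧
      f (-2 * (a * D)) ((a * D) ^ 2 - 4 * (b * D ^ 2)) = f (-2 * a) (a ^ 2 - 4 * b) + k a b D ∧
      s (a * D) (b * D ^ 2) = s a b + 2 * k a b D ∧
      (rk (E (a * D) (b * D ^ 2)) : ℤ) ≤ s a b + 2 * k a b D := by
    intro D h
    have h' := (class_iff a b D).1 h
    have hH := Pool.Agent.U115.GE.class_hg hb0 hc0 h'
    have hk := Pool.Agent.U115.GE.class_kap hb0 hc0 h'
    have hD := Pool.Agent.U115.GE.prod_eq (a := a) (b := b) h.1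
    obtain ⟨h1, h2⟩ := hH.bound hG hB hD
    have e1 := hH.sel_eq hG
    have e2 := hH.sel_eq' hG
    rw [← hD, hk, ← k_eq] at e1 e2
    rw [hk, ← k_eq] at h2
    rw [card_pow (hH.b0 hD), card_pow hb0, ← pow_add] at e1
    rw [card_pow (hH.c0 hD), card_pow hc0, ← pow_add] at e2
    have f1 : f (a * D) (b * D ^ 2) = f a b + k a b D := by
      have := two _ _ e1
      omega
    have f2 : f (-2 * (a * D)) ((a * D) ^ 2 - 4 * (b * D ^ 2)) =
        f (-2 * a) (a ^ 2 - 4 * b) + k a b D := by
      have := two _ _ e2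
      omega
    refine ⟨f1, f2, ?_, ?_⟩
    · unfold s
      rw [f1, f2]
      push_cast
      ring
    · rw [twE_eq] at h2
      have hX0 : 0 < Nat.card {x : Pool.Agent.TH841.NF.D.Sha (Pool.Agent.U115.GE.twE a b D) //
          2 • x = 0} := Nat.card_pos_iff.2 ⟨⟨⟨0, smul_zero 2⟩⟩, h1⟩
      rw [twE_eq] at hX0
      rw [card_pow hb0, card_pow hc0, ← pow_mul, ← pow_add, ← pow_add] at h2
      have h3 : 2 ^ (rk (E (a * D) (b * D ^ 2)) + 2) ≤
          2 ^ (k a b D * 2 + (f a b + f (-2 * a) (a ^ 2 - 4 * b))) := by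
        refine le_trans ?_ h2
        have h4 : 2 ^ (rk (E (a * D) (b * D ^ 2)) + 2) = 4 * 2 ^ rk (E (a * D) (b * D ^ 2)) := by
          rw [pow_add]; ring
        rw [h4]
        exact Nat.le_mul_of_pos_right _ hX0
      have h5 := (Nat.pow_le_pow_iff_right (by norm_num : 1 < 2)).1 h3
      unfold s
      omega
  have hpar : ∀ D : ℕ, Class a b D →
      (Parity (a * D) (b * D ^ 2) ↔ (rk (E (a * D) (b * D ^ 2)) : ℤ) ≡ s a b [ZMOD 2]) := by
    intro D h
    obtain ⟨-, -, h3, -⟩ := key D h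
    unfold Parity
    rw [h3]
    unfold Int.ModEq
    omega
  have hlaw : ∀ j : ℕ, Filter.Tendsto
      (fun X : ℕ => (num a b (fun D => s (a * D) (b * D ^ 2) = s a b + 2 * j) X : ℝ) /
        (num a b (fun _ => True) X : ℝ)) Filter.atTop (nhds (c j)) := by
    intro j
    refine (Pool.Agent.U115.GE.densK hb hc j).congr fun X => ?_
    have h0 : ∀ D, Class a b D → (s (a * D) (b * D ^ 2) = s a b + 2 * j ↔
        Pool.Agent.U115.GE.cork a b D = j) := by
      intro D h
      obtain ⟨-, -, h3, -⟩ := key D h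
      rw [h3, ← k_eq]
      omega
    rw [num_true, num_eq h0]
    congr!
  have hz : ∀ D : ℕ, s a b = 0 → Class a b D → k a b D = 0 → rk (E (a * D) (b * D ^ 2)) = 0 ∧
      s (a * D) (b * D ^ 2) = 0 ∧ Parity (a * D) (b * D ^ 2) := by
    intro D hs h hk
    obtain ⟨-, -, h3, h4⟩ := key D h
    rw [hs, hk] at h3 h4
    have h5 : rk (E (a * D) (b * D ^ 2)) = 0 := by omega
    have h6 : s (a * D) (b * D ^ 2) = 0 := by omega
    refine ⟨h5, h6, ?_⟩
    unfold Parity
    rw [h5, h6]
    rfl
  obtain ⟨-, -, -, c1, c2⟩ := Pool.Agent.Y948.CQ.t_C2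
  have hc00 : c 0 = Pool.Agent.Y703.CQ.c2 := by
    unfold c
    rw [Finset.range_zero, Finset.prod_empty, div_one]
    rfl
  refine ⟨fun D h => ?_, hlaw, Pool.Agent.U388.GD.t_SUMK, by rw [hc00]; exact c1,
    by rw [hc00]; exact c2, fun hs => ⟨fun D h hk => hz D hs h hk, fun ε hε => ?_⟩, ?_⟩
  · obtain ⟨h1, h2, h3, h4⟩ := key D h
    exact ⟨h1, h2, h3, h4, hpar D h⟩
  · have h1 := (hlaw 0).eventually (lt_mem_nhds (show c 0 - ε < c 0 by linarith))
    obtain ⟨X₀, h2⟩ := Filter.eventually_atTop.1 h1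
    refine ⟨X₀, fun X hX => ?_⟩
    have h3 := h2 X hX
    have h4 : num a b (fun D => s (a * D) (b * D ^ 2) = s a b + 2 * ((0 : ℕ) : ℤ)) X ≤
        num a b (fun D => Parity (a * D) (b * D ^ 2)) X := by
      refine num_mono (fun D h h5 => ?_) X
      obtain ⟨-, -, h6, -⟩ := key D h
      rw [h6] at h5
      have h7 : k a b D = 0 := by
        push_cast at h5
        omega
      exact (hz D hs h h7).2.2
    by_cases h0 : (num a b (fun _ => True) X : ℝ) = 0
    · rw [h0, mul_zero]
      positivity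
    · have h5 : 0 < (num a b (fun _ => True) X : ℝ) :=
        lt_of_le_of_ne (Nat.cast_nonneg _) (Ne.symm h0)
      have h6 := (lt_div_iff₀ h5).1 h3
      refine h6.le.trans ?_
      exact_mod_cast h4
  · obtain ⟨e1, e2⟩ := Pool.Agent.U115.GE.sel_X14
    have n1 : (128 : ℤ) ≠ 0 := by norm_num
    have n2 : ((13 : ℤ) ^ 2 - 4 * 128) ≠ 0 := by norm_num
    rw [card_pow n1] at e1
    rw [card_pow n2] at e2
    have f1 : f 13 128 = 1 := two _ _ (by rw [e1]; norm_num)
    have f2 : f (-2 * 13) (13 ^ 2 - 4 * 128) = 1 := two _ _ (by rw [e2]; norm_num)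
    unfold s
    rw [f1, f2]
    norm_num

end Pool.Agent.Results.MP_e2b281_nt.SelmerRankLaw
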